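import Pool.Agent.H14.WS.Fin
import Pool.Agent.H14.WS.Asy
import Pool.Agent.H12.WormData

/-!
# Translation covers for closed curves of length one: area and asymmetry

A compact convex translation cover `K` with `-(K - c) ⊆ s (K - c)` has area at least
`π / (8 (1 + s))`. For `s = 1` (centrally symmetric covers) this is the exact least area `π / 16`,
attained by the discs of radius `1 / 4` only; covers with `s ≤ 7 / 5` are not optimal.
-/

set_option autoImplicit false

namespace Pool.Agent.Results.MP_02fa30_co.AsymmetryBound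

open MeasureTheory Metric
open Pool.Agent.H12.Worm Pool.Agent.H14.WS

/-- `-(K - c) ⊆ s (K - c)` -/
def Asym (K : Set Plane) (c : Plane) (s : ℝ) : Prop := ∀ x ∈ K, c - s⁻¹ • (x - c) ∈ K

theorem result :
    (∀ K : Set Plane, IsCompact K → Convex ℝ K → IsTranslationCover K → ∀ c : Plane,
      (∀ r : ℝ, 0 < r → closedBall c r ⊆ K → ENNReal.ofReal (Real.pi * r / 4) ≤ volume K) ∧
      ∀ s : ℝ, 0 < s → Asym K c s → closedBall c (1 / (2 * (1 + s))) ⊆ K ∧
        ENNReal.ofReal (Real.pi / (8 * (1 + s))) ≤ volume K ∧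
        (s ≤ 7 / 5 → muTilde + ENNReal.ofReal (1 / 1000) ≤ volume K)) ∧
    (∀ (K : Set Plane) (c : Plane), IsCompact K → Convex ℝ K → Asym K c 1 →
      (IsTranslationCover K ↔ closedBall c (1 / 4) ⊆ K)) ∧
    leastArea symm = ENNReal.ofReal (Real.pi / 16) ∧
    (∀ K ∈ symm, IsTranslationCover K → (volume K = leastArea symm ↔
      ∃ c, K = closedBall c (1 / 4))) := by
  refine ⟨?_, ?_, leastArea_symm, ?_⟩
  · intro K hcomp hconv hc c
    refine ⟨fun r hr hball => area_ball hcomp hconv hc hr hball, fun s hs h => ?_⟩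
    have h1 := area_asym hcomp hconv hc hs h
    refine ⟨ball_subset hconv hc hs h, h1, fun hs2 => ?_⟩
    have h2 : muTilde ≤ ENNReal.ofReal (16246 / 100000) := muTilde_le
    calc muTilde + ENNReal.ofReal (1 / 1000)
        ≤ ENNReal.ofReal (16246 / 100000) + ENNReal.ofReal (1 / 1000) := by gcongr
      _ = ENNReal.ofReal (16246 / 100000 + 1 / 1000) := by
        rw [ENNReal.ofReal_add (by norm_num) (by norm_num)]
      _ ≤ ENNReal.ofReal (Real.pi / (8 * (1 + s))) := by
        apply ENNReal.ofReal_le_ofReal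
        rw [le_div_iff₀ (by positivity)]
        have h3 := Real.pi_gt_d4
        nlinarith
      _ ≤ volume K := h1
  · intro K c _ hconv h
    apply sym_iff hconv
    intro x hx
    have := h x hx
    rwa [inv_one, one_smul] at this
  · intro K hK hc
    refine ⟨fun hv => symm_unique hK hc (by rw [hv, leastArea_symm]), ?_⟩
    rintro ⟨c, rfl⟩
    rw [quarter_disc, leastArea_symm]

end Pool.Agent.Results.MP_02fa30_co.AsymmetryBound
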