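import Pool.Agent.H12.WormLMain

namespace Pool.Agent.Results.MP_02fa30_co.LowerBound

open Pool.Agent.H12.Worm

/-- The least area of a convex translation cover for closed curves of length `1` is at least
`0.1601`; in particular it is larger than `1 / (2 π)`. -/
theorem result :
    ENNReal.ofReal (1601 / 10000) ≤ muTilde ∧ ENNReal.ofReal (1 / (2 * Real.pi)) < muTilde := by
  refine ⟨le_muTilde, lt_of_lt_of_le ?_ le_muTilde⟩
  rw [ENNReal.ofReal_lt_ofReal_iff (by norm_num), div_lt_div_iff₀ (by positivity) (by norm_num)]
  have := Real.pi_gt_d2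
  linarith

end Pool.Agent.Results.MP_02fa30_co.LowerBound
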