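import Pool.Agent.H14.WS.Fin

/-!
# Translation covers for closed curves of length one: polygons with angles 60 or 120 degrees

Among the convex polygons all of whose angles are `60` or `120` degrees the least area of a
translation cover is `1 - 17 √3 / 36 = 0.18208...`, attained by one hexagon only.
-/

set_option autoImplicit false

namespace Pool.Agent.Results.MP_02fa30_co.SixtyDegreePolygons

open MeasureTheory
open Pool.Agent.H12.Worm Pool.Agent.H14.WS

/-- the sets `sixty θ h`: intersections of six half-planes with outer normals at angles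
`θ, θ + 60, ..., θ + 300` degrees -/
def Sixty : Set (Set Plane) := {K | ∃ (θ : ℝ) (h : Fin 6 → ℝ), K = sixty θ h}

theorem result :
    (∀ (θ : ℝ) (h : Fin 6 → ℝ), IsTranslationCover (sixty θ h) ↔
      (1 / 2 ≤ h 0 + h 3 ∧ 1 / 2 ≤ h 1 + h 4 ∧ 1 / 2 ≤ h 2 + h 5) ∧
        1 / Real.sqrt 3 ≤ h 0 + h 2 + h 4 ∧ 1 / Real.sqrt 3 ≤ h 1 + h 3 + h 5) ∧
    leastArea Sixty = ENNReal.ofReal (1 - 17 * Real.sqrt 3 / 36) ∧
    (∃ K ∈ Sixty, IsTranslationCover K ∧ volume K = leastArea Sixty) ∧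
    (∀ K ∈ Sixty, IsTranslationCover K → (volume K = leastArea Sixty ↔
      ∃ θ p q : ℝ, K = Hx θ p q (1 / Real.sqrt 3))) := by
  have hsix : leastArea Sixty = ENNReal.ofReal (1 - 17 * Real.sqrt 3 / 36) := leastArea_sixty
  refine ⟨sixty_iff, hsix, ⟨_, ⟨0, hst, rfl⟩, hst_cover, ?_⟩, ?_⟩
  · rw [hsix]
    exact hst_volume
  · rintro K ⟨θ, h, rfl⟩ hc
    refine ⟨fun hv => sixty_unique hc (by rw [hv, hsix]), ?_⟩
    rintro ⟨θ', p, q, hK⟩
    have hb := sqrt3_bounds
    rw [hK, volume_Hx θ' p q _ hb.1 (by linarith), value_eq, hsix]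

end Pool.Agent.Results.MP_02fa30_co.SixtyDegreePolygons
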