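import Pool.Agent.H12.WormData

namespace Pool.Agent.Results.MP_02fa30_co.UpperBound

open Pool.Agent.H12.Worm

/-- The least area of a convex translation cover for closed curves of length `1` is at most
`0.16246`. -/
theorem result : muTilde ≤ ENNReal.ofReal (16246 / 100000) := muTilde_le

end Pool.Agent.Results.MP_02fa30_co.UpperBound
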